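import Pool.Agent.K7.H41.OP.ALL
import Pool.Agent.K7.H78.OP.DCC

set_option autoImplicit false

/-!
# Residual finiteness of the outer automorphism group of a direct product

Let `A` and `B` be finitely generated residually finite groups with residually finite outer
automorphism groups. If only finitely many central factors of `B` are isomorphic, modulo the
centres, to central factors of `A`, or the other way round, then `Out (A × B)` is residually finite.
This holds in particular if `A` or `B` satisfies the minimal condition on centralizers.
-/

namespace Pool.Agent.Results.MP_0c5939_al.CommonCentralFactors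

/-- `G` is residually finite: every `g ≠ 1` is mapped to an element different from `1` by some
homomorphism of `G` onto a finite group. -/
def ResiduallyFinite (G : Type) [Group G] : Prop :=
  ∀ g : G, g ≠ 1 → ∃ (F : Type) (_ : Group F) (_ : Finite F) (f : G →* F),
    Function.Surjective f ∧ f g ≠ 1

/-- The group of inner automorphisms. -/
def Inn (G : Type) [Group G] : Subgroup (MulAut G) := (MulAut.conj : G →* MulAut G).range

instance Inn.normal (G : Type) [Group G] : (Inn G).Normal := K7.H41.OP.Inn.normal G

/-- The outer automorphism group. -/
abbrev Out (G : Type) [Group G] : Type := MulAut G ⧸ Inn G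

/-- `F` is a central factor of `G`: there is a subgroup `E` such that `G = E F`, both contain the
centre of `G`, the elements of `E` commute with the elements of `F`, and the commutator subgroups of
`E` and `F` have trivial intersection. For instance every direct factor, multiplied by the centre,
is a central factor; the centre and `G` always are. -/
def IsCentralFactor (G : Type) [Group G] (F : Subgroup G) : Prop :=
  Subgroup.center G ≤ F ∧ ∃ E : Subgroup G, Subgroup.center G ≤ E ∧ E ⊔ F = ⊤ ∧
    (∀ e ∈ E, ∀ f ∈ F, e * f = f * e) ∧ ⁅E, E⁆ ⊓ ⁅F, F⁆ = ⊥

/-- Only finitely many central factors `F` of `B` are isomorphic, modulo the centres, to central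
factors `F₁` of `A`: `F / Z(B) ≅ F₁ / Z(A)` (as images in `B / Z(B)` and `A / Z(A)`). -/
def FewCommonFactors (A B : Type) [Group A] [Group B] : Prop :=
  {F : Subgroup B | IsCentralFactor B F ∧ ∃ F₁ : Subgroup A, IsCentralFactor A F₁ ∧
    Nonempty (F.map (QuotientGroup.mk' (Subgroup.center B)) ≃*
      F₁.map (QuotientGroup.mk' (Subgroup.center A)))}.Finite

theorem rf_iff (G : Type) [Group G] : ResiduallyFinite G ↔ K7.H41.OP.RF G := by
  constructor
  · intro h g hg
    obtain ⟨F, h1, h2, f, h3, h4⟩ := h g hg
    refine ⟨f.ker, f.normal_ker, ?_, fun h5 => h4 h5⟩
    have : Finite (G ⧸ f.ker) :=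
      Finite.of_injective _ (QuotientGroup.kerLift_injective f)
    exact Subgroup.finiteIndex_of_finite_quotient
  · intro h g hg
    obtain ⟨N, h1, h2, h3⟩ := h g hg
    have := h1
    have := h2
    refine ⟨G ⧸ N, inferInstance, Subgroup.finite_quotient_of_finiteIndex, QuotientGroup.mk' N,
      QuotientGroup.mk'_surjective N, fun h4 => h3 ?_⟩
    exact (QuotientGroup.eq_one_iff _).1 h4

/-- The minimal condition on centralizers: there is no infinite strictly descending chain of
centralizers of subsets. -/
def MinCentralizers (G : Type) [Group G] : Prop :=
  ¬ ∃ f : ℕ → Subgroup G, (∀ n, ∃ S : Set G, f n = Subgroup.centralizer S) ∧ StrictAnti f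

/-- **Theorem.** (1) Let `A` and `B` be finitely generated residually finite groups such that
`Out A` and `Out B` are residually finite. Suppose that only finitely many central factors of `B`
are isomorphic, modulo the centres, to central factors of `A`, or that only finitely many central
factors of `A` are isomorphic, modulo the centres, to central factors of `B`. Then `Out (A × B)` is
residually finite. (2) The hypothesis on the central factors is satisfied if `A` or `B` satisfies
the minimal condition on centralizers. -/
theorem result :
    (∀ (A B : Type) [Group A] [Group B] [Group.FG A] [Group.FG B],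
      ResiduallyFinite A → ResiduallyFinite B → ResiduallyFinite (Out A) →
      ResiduallyFinite (Out B) → FewCommonFactors A B ∨ FewCommonFactors B A →
      ResiduallyFinite (Out (A × B))) ∧
    (∀ (A B : Type) [Group A] [Group B], MinCentralizers A ∨ MinCentralizers B →
      FewCommonFactors A B ∨ FewCommonFactors B A) := by
  refine ⟨fun A B _ _ _ _ hA hB oA oB h => ?_, fun A B _ _ h => ?_⟩
  · rw [rf_iff] at *
    exact K7.H41.OP.thm A B inferInstance inferInstance hA hB oA oB h
  · rcases h with h | h
    · exact Or.inr ((K7.H78.OP.dcc A h).subset fun F hF => hF.1)
    · exact Or.inl ((K7.H78.OP.dcc B h).subset fun F hF => hF.1)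

end Pool.Agent.Results.MP_0c5939_al.CommonCentralFactors
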